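import Pool.Agent.H143R3.MT.Stmts

/-! TaskHit of project H143-MT. -/

namespace Pool.Agent.H421R3.MT

open MeasureTheory ProbabilityTheory Filter Topology
open scoped ENNReal NNReal
open Pool.Agent.H143R3.MT

lemma conv_exp_le (a5 : TaskA5) (s : ℝ≥0) (θ : ℝ) (hθ : 0 ≤ θ) (z : ℤ) :
    ∑' k : ℤ, sk s k * ENNReal.ofReal (Real.exp (-(θ * |((z + k : ℤ) : ℝ)|))) ≤
      ENNReal.ofReal (Real.exp (-(θ * |(z : ℝ)|))) *
        ENNReal.ofReal (Real.exp (s * (Real.cosh θ - 1))) := by
  rcases le_or_gt 0 z with hz | hz
  · have h := a5 s (-θ)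
    rw [Real.cosh_neg] at h
    rw [← h, ← ENNReal.tsum_mul_left]
    refine ENNReal.tsum_le_tsum fun k => ?_
    rw [mul_left_comm]
    refine mul_le_mul_right ?_ _
    rw [← ENNReal.ofReal_mul (Real.exp_pos _).le, ← Real.exp_add]
    refine ENNReal.ofReal_le_ofReal (Real.exp_le_exp.2 ?_)
    have hz' : (0 : ℝ) ≤ z := by exact_mod_cast hz
    rw [abs_of_nonneg hz']
    have h1 : (z : ℝ) + k ≤ |((z + k : ℤ) : ℝ)| := by
      push_cast
      exact le_abs_self _
    nlinarith [mul_le_mul_of_nonneg_left h1 hθ]
  · have h := a5 s θ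
    rw [← h, ← ENNReal.tsum_mul_left]
    refine ENNReal.tsum_le_tsum fun k => ?_
    rw [mul_left_comm]
    refine mul_le_mul_right ?_ _
    rw [← ENNReal.ofReal_mul (Real.exp_pos _).le, ← Real.exp_add]
    refine ENNReal.ofReal_le_ofReal (Real.exp_le_exp.2 ?_)
    have hz' : (z : ℝ) < 0 := by exact_mod_cast hz
    rw [abs_of_neg hz']
    have h1 : -((z : ℝ) + k) ≤ |((z + k : ℤ) : ℝ)| := by
      push_cast
      exact neg_le_abs _
    nlinarith [mul_le_mul_of_nonneg_left h1 hθ]

theorem taskHit : TaskHit := by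
  intro _ a5 s θ hθ A B r w
  induction w with
  | nil =>
    intro _ _ z
    simp [Wd]
  | cons x w ih =>
    intro hw hB z
    have hc : 0 ≤ (s : ℝ) * (Real.cosh θ - 1) :=
      mul_nonneg s.2 (by linarith [Real.one_le_cosh θ])
    have ih' := ih (fun v hv => hw v (List.mem_cons_of_mem _ hv))
      (fun i z hi hz => hB i z (by simp only [List.length_cons]; omega) hz)
    by_cases hz : z = x
    · simp only [Wd, if_pos hz]
      have h1 := hB (w.length + 1) z (by simp) (by rw [hz]; exact hw x List.mem_cons_self)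
      refine h1.trans ?_
      have h2 : (1 : ℝ≥0∞) ≤ ENNReal.ofReal (Real.exp ((x :: w).length * (s * (Real.cosh θ - 1)) +
          θ * (A - |(z : ℝ)|))) := by
        rw [ENNReal.one_le_ofReal]
        apply Real.one_le_exp
        have h3 : |(z : ℝ)| ≤ A := by
          have := hw x List.mem_cons_self
          rw [← hz] at this
          exact_mod_cast this
        have h4 : 0 ≤ θ * (A - |(z : ℝ)|) := mul_nonneg hθ (by linarith)
        have h5 : (0 : ℝ) ≤ ((x :: w).length : ℝ) := by positivity
        have h6 := mul_nonneg h5 hc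
        linarith
      calc B = B * 1 := (mul_one B).symm
        _ ≤ _ := mul_le_mul_right h2 _
    · simp only [Wd, if_neg hz, conv]
      calc ∑' k : ℤ, sk s k * Wd (sk s) w r (z + k)
          ≤ ∑' k : ℤ, (B * ENNReal.ofReal (Real.exp (w.length * (s * (Real.cosh θ - 1)) + θ * A))) *
              (sk s k * ENNReal.ofReal (Real.exp (-(θ * |((z + k : ℤ) : ℝ)|)))) := by
            refine ENNReal.tsum_le_tsum fun k => ?_
            refine (mul_le_mul_right (ih' (z + k)) _).trans (le_of_eq ?_)
            have h7 : Real.exp (w.length * (s * (Real.cosh θ - 1)) + θ * (A - |((z + k : ℤ) : ℝ)|)) =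
                Real.exp (w.length * (s * (Real.cosh θ - 1)) + θ * A) *
                  Real.exp (-(θ * |((z + k : ℤ) : ℝ)|)) := by
              rw [← Real.exp_add]
              congr 1
              ring
            rw [h7, ENNReal.ofReal_mul (Real.exp_pos _).le]
            ring
        _ = (B * ENNReal.ofReal (Real.exp (w.length * (s * (Real.cosh θ - 1)) + θ * A))) *
              ∑' k : ℤ, sk s k * ENNReal.ofReal (Real.exp (-(θ * |((z + k : ℤ) : ℝ)|))) :=
            ENNReal.tsum_mul_left
        _ ≤ (B * ENNReal.ofReal (Real.exp (w.length * (s * (Real.cosh θ - 1)) + θ * A))) *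
              (ENNReal.ofReal (Real.exp (-(θ * |(z : ℝ)|))) *
                ENNReal.ofReal (Real.exp (s * (Real.cosh θ - 1)))) :=
            mul_le_mul_right (conv_exp_le a5 s θ hθ z) _
        _ = B * ENNReal.ofReal (Real.exp ((x :: w).length * (s * (Real.cosh θ - 1)) +
              θ * (A - |(z : ℝ)|))) := by
            rw [mul_assoc, ← ENNReal.ofReal_mul (Real.exp_pos _).le,
              ← ENNReal.ofReal_mul (Real.exp_pos _).le, ← Real.exp_add, ← Real.exp_add]
            congr 3
            simp only [List.length_cons]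
            push_cast
            ring

end Pool.Agent.H421R3.MT
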